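import Pool.Agent.Helper18.GP.Api

/-!
# Gilbert-Pollak, chapter COR: definitions (helper42)

From the polygon theorem `stG` to planar networks `stPlanar`.  Labels are natural numbers with the
cyclic order `Cc`.  Everything about `Cc`, `Cx`, `Cs` of explicit labels is decided by
`simp only [Cs, Cx, Cc] at *` and `omega`.
-/

set_option autoImplicit false

namespace Pool.Agent.Helper42.GP

open Pool.Agent.Helper18.GP Relation Classical

/-- cyclic order of labels: walking upwards from `a` (cyclically) one meets `b`, then `c` -/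
def Cc (a b c : ℕ) : Prop := (a < b ∧ b < c) ∨ (b < c ∧ c < a) ∨ (c < a ∧ a < b)

/-- the pairs `{a,b}` and `{c,d}` interleave -/
def Cx (a b c d : ℕ) : Prop := (Cc a c b ∧ Cc a b d) ∨ (Cc a d b ∧ Cc a b c)

/-- `b` is the cyclic successor of `a` in `V` -/
def Cs (V : Finset ℕ) (a b : ℕ) : Prop := a ∈ V ∧ b ∈ V ∧ a ≠ b ∧ ∀ d ∈ V, ¬ Cc a d b

/-- `G` is (on `V`) a triangulation of the polygon with vertex set `V` -/
structure Tri (V : Finset ℕ) (G : SimpleGraph ℕ) : Prop where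
  nc : ∀ a ∈ V, ∀ b ∈ V, ∀ c ∈ V, ∀ d ∈ V, G.Adj a b → G.Adj c d → ¬ Cx a b c d
  mx : ∀ a ∈ V, ∀ b ∈ V, a ≠ b → ¬ G.Adj a b → ∃ c ∈ V, ∃ d ∈ V, G.Adj c d ∧ Cx a b c d

/-- all triangles are strictly positively oriented -/
def SP (V : Finset ℕ) (G : SimpleGraph ℕ) (P : ℕ → ℂ) : Prop :=
  ∀ a ∈ V, ∀ b ∈ V, ∀ c ∈ V, Cc a b c → G.Adj a b → G.Adj b c → G.Adj a c →
    0 < crs (P b - P a) (P c - P a)

/-- angle at `z` from `a` to `b` (counterclockwise, in `(-π, π]`) -/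
noncomputable def ag (z a b : ℂ) : ℝ := Complex.arg ((b - z) / (a - z))

/-- total angle at the vertex `v` -/
noncomputable def ang (V : Finset ℕ) (G : SimpleGraph ℕ) (P : ℕ → ℂ) (v : ℕ) : ℝ :=
  ∑ p ∈ (V ×ˢ V).filter fun p => Cc v p.1 p.2 ∧ G.Adj v p.1 ∧ G.Adj v p.2 ∧ G.Adj p.1 p.2,
    ag (P v) (P p.1) (P p.2)

/-- the vertex `v` as a point -/
def dn (v : ℕ) : ℕ → ℝ := Pi.single v 1

/-- points of the complex: probability vectors on `V` supported on a clique of `G` -/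
def Pt (V : Finset ℕ) (G : SimpleGraph ℕ) : Set (ℕ → ℝ) :=
  {x | (∀ v, 0 ≤ x v) ∧ ∑ v ∈ V, x v = 1 ∧ (∀ v, x v ≠ 0 → v ∈ V) ∧
    ∀ a b, x a ≠ 0 → x b ≠ 0 → a ≠ b → G.Adj a b}

/-- two points lie in a common face -/
def Shn (G : SimpleGraph ℕ) (x y : ℕ → ℝ) : Prop :=
  ∀ a b, (x a ≠ 0 ∨ y a ≠ 0) → (x b ≠ 0 ∨ y b ≠ 0) → a ≠ b → G.Adj a b

/-- position of a point -/
noncomputable def dvn (V : Finset ℕ) (P : ℕ → ℂ) (x : ℕ → ℝ) : ℂ := ∑ v ∈ V, (x v : ℂ) * P v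

/-- chains with their lengths: consecutive points lie in a common face -/
inductive Chn (V : Finset ℕ) (G : SimpleGraph ℕ) (P : ℕ → ℂ) :
    (ℕ → ℝ) → (ℕ → ℝ) → ℝ → Prop
  | nil (x : ℕ → ℝ) (hx : x ∈ Pt V G) : Chn V G P x x 0
  | cons (x y z : ℕ → ℝ) (c : ℝ) (hx : x ∈ Pt V G) (hs : Shn G x y) (h : Chn V G P y z c) :
      Chn V G P x z (‖dvn V P x - dvn V P y‖ + c)

/-- `Θ` maps the points of one complex to those of another one and does not increase lengths -/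
structure LM (V : Finset ℕ) (G : SimpleGraph ℕ) (P : ℕ → ℂ) (V' : Finset ℕ) (G' : SimpleGraph ℕ)
    (P' : ℕ → ℂ) (Θ : (ℕ → ℝ) → (ℕ → ℝ)) : Prop where
  pt : ∀ x ∈ Pt V G, Θ x ∈ Pt V' G'
  ch : ∀ x ∈ Pt V G, ∀ y ∈ Pt V G, Shn G x y →
    ∃ c ≤ ‖dvn V P x - dvn V P y‖, Chn V' G' P' (Θ x) (Θ y) c

/-- the pairs of points which are joined by the network `E` (a list of chains) -/
def EE (E : List ((ℕ → ℝ) × (ℕ → ℝ) × ℝ)) (x y : ℕ → ℝ) : Prop := ∃ r, (x, y, r) ∈ E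

/-- there is a network of chains of total length at most `c` which joins all pairs in `K` -/
def NW (V : Finset ℕ) (G : SimpleGraph ℕ) (P : ℕ → ℂ) (K : ℕ → ℕ → Prop) (c : ℝ) : Prop :=
  ∃ E : List ((ℕ → ℝ) × (ℕ → ℝ) × ℝ), (∀ e ∈ E, Chn V G P e.1 e.2.1 e.2.2) ∧
    (E.map fun e => e.2.2).sum ≤ c ∧ ∀ s ∈ V, ∀ t ∈ V, K s t → EqvGen (EE E) (dn s) (dn t)

/-- generic set of points: no three on a line, no parallel pairs -/
def Gen (Q : Set ℂ) : Prop := ∀ a ∈ Q, ∀ b ∈ Q, ∀ c ∈ Q, ∀ d ∈ Q, a ≠ b → c ≠ d →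
  ¬ (a = c ∧ b = d) → ¬ (a = d ∧ b = c) → crs (a - b) (c - d) ≠ 0

/-- the segments `ab` and `cd` cross strictly -/
def XX (a b c d : ℂ) : Prop := crs (b - a) (c - a) * crs (b - a) (d - a) < 0 ∧
  crs (d - c) (a - c) * crs (d - c) (b - c) < 0

/-! ### words -/

/-- a vertex of a polygon: position, angle (if known), tag (tag 0: no tag) -/
structure It where
  p : ℂ
  a : Option ℝ
  g : ℕ

/-- sum of angles, if both are known -/
noncomputable def oadd : Option ℝ → Option ℝ → Option ℝ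
  | some a, some b => some (a + b)
  | _, _ => none

/-- merge of two items at the same position, one of them without tag -/
noncomputable def It.add (i j : It) : It := ⟨i.p, oadd i.a j.a, i.g + j.g⟩

/-- two positions of the word carry the same tag -/
def Kt (L : List It) (s t : ℕ) : Prop :=
  ∃ i j, L[s]? = some i ∧ L[t]? = some j ∧ i.g = j.g ∧ i.g ≠ 0

/-- there is a positive triangulated polygon with the word `L` and in it a network of length at most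
`c` which connects the vertices with equal tags -/
def Pol (L : List It) (c : ℝ) : Prop := ∃ (G : SimpleGraph ℕ) (P : ℕ → ℂ),
  Tri (Finset.range L.length) G ∧ SP (Finset.range L.length) G P ∧
  (∀ (s : ℕ) (i : It), L[s]? = some i →
    P s = i.p ∧ ∀ α, i.a = some α → ang (Finset.range L.length) G P s = α) ∧
  NW (Finset.range L.length) G P (Kt L) c

/-! ### a polygon with one interior vertex -/

/-- polygon on `U` with an interior vertex at `z` joined to the vertices in `W` -/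
structure PS (U : Finset ℕ) (G : SimpleGraph ℕ) (W : Finset ℕ) (P : ℕ → ℂ) (z : ℂ) : Prop where
  WU : W ⊆ U
  W3 : 3 ≤ W.card
  nc : ∀ a ∈ U, ∀ b ∈ U, ∀ c ∈ U, ∀ d ∈ U, G.Adj a b → G.Adj c d → ¬ Cx a b c d
  face : ∀ a ∈ U, ∀ b ∈ U, G.Adj a b → ∀ c ∈ W, ∀ d ∈ W, ¬ Cx a b c d
  side : ∀ a b, Cs W a b → G.Adj a b
  mx : ∀ a ∈ U, ∀ b ∈ U, a ≠ b → ¬ G.Adj a b → ¬ (a ∈ W ∧ b ∈ W) →
    ∃ c ∈ U, ∃ d ∈ U, G.Adj c d ∧ Cx a b c d
  pos : ∀ a ∈ U, ∀ b ∈ U, ∀ c ∈ U, Cc a b c → G.Adj a b → G.Adj b c → G.Adj a c →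
    ¬ (a ∈ W ∧ b ∈ W ∧ c ∈ W) → 0 < crs (P b - P a) (P c - P a)
  st : ∀ a b, Cs W a b → 0 < crs (P a - z) (P b - z)
  tot : ∑ p ∈ (W ×ˢ W).filter (fun p => Cs W p.1 p.2), ag z (P p.1) (P p.2) = 2 * Real.pi

/-- the complex: the edges of `G` in `U` and the edges from `z` to `W` -/
def cone (U : Finset ℕ) (G : SimpleGraph ℕ) (W : Finset ℕ) (z : ℕ) : SimpleGraph ℕ :=
  SimpleGraph.fromRel fun a b => (a ∈ U ∧ b ∈ U ∧ G.Adj a b) ∨ (a = z ∧ b ∈ W)

/-- total angle at the vertex `v ∈ U` -/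
noncomputable def tot (U : Finset ℕ) (G : SimpleGraph ℕ) (W : Finset ℕ) (P : ℕ → ℂ) (z : ℂ)
    (v : ℕ) : ℝ :=
  (∑ p ∈ (U ×ˢ U).filter (fun p => Cc v p.1 p.2 ∧ G.Adj v p.1 ∧ G.Adj v p.2 ∧ G.Adj p.1 p.2 ∧
      ¬ (v ∈ W ∧ p.1 ∈ W ∧ p.2 ∈ W)), ag (P v) (P p.1) (P p.2)) +
  (∑ b ∈ W.filter (fun b => Cs W v b), ag (P v) (P b) z) +
  ∑ a ∈ W.filter (fun a => Cs W a v), ag (P v) z (P a)

/-! ### trees -/

/-- binary trees with labels -/
inductive BT
  | leaf (i : ℕ)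
  | node (i : ℕ) (a b : BT)

/-- label of the root -/
def BT.rt : BT → ℕ
  | .leaf i => i
  | .node i _ _ => i

/-- all labels -/
def BT.labs : BT → List ℕ
  | .leaf i => [i]
  | .node i a b => i :: (a.labs ++ b.labs)

/-- labels of the leaves -/
def BT.lvs : BT → List ℕ
  | .leaf i => [i]
  | .node _ a b => a.lvs ++ b.lvs

/-- edges, with the edge from `y` to the root -/
def BT.eds (y : ℕ) : BT → List (ℕ × ℕ)
  | .leaf i => [(y, i)]
  | .node i a b => (y, i) :: (a.eds i ++ b.eds i)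

/-- at every node parent, first child, second child are in counterclockwise order, the three angles
are less than `π` -/
def BT.Good (P : ℕ → ℂ) (y : ℕ) : BT → Prop
  | .leaf _ => True
  | .node z a b => 0 < crs (P y - P z) (P a.rt - P z) ∧ 0 < crs (P a.rt - P z) (P b.rt - P z) ∧
      0 < crs (P b.rt - P z) (P y - P z) ∧ a.Good P z ∧ b.Good P z

/-- length -/
noncomputable def elen (P : ℕ → ℂ) (E : List (ℕ × ℕ)) : ℝ := (E.map fun e => ‖P e.1 - P e.2‖).sum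

/-- the set `m` of pairs connects `B` inside `B` -/
def SpanT (B : List ℕ) (m : Finset (ℕ × ℕ)) : Prop :=
  (∀ e ∈ m, e.1 ∈ B ∧ e.2 ∈ B) ∧ ∀ a ∈ B, ∀ b ∈ B, EqvGen (fun x y => (x, y) ∈ m) a b

/-- `rho` times a spanning tree is at most the tree -/
def TIneq (P : ℕ → ℂ) (y : ℕ) (t : BT) : Prop :=
  ∃ m : Finset (ℕ × ℕ), SpanT (y :: t.lvs) m ∧
    rho * (∑ e ∈ m, ‖P e.1 - P e.2‖) ≤ elen P (t.eds y)

end Pool.Agent.Helper42.GP
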