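import Pool.Agent.Helper42.GP.Defs
import Pool.Agent.Helper96.GPL.St

/-!
# Gilbert-Pollak, chapter COR: statements of the modules, with written proofs (helper42)

Every `c.. m.. a.. z.. f.. p..` is a `Prop`, proved in its own module
`Pool/Agent/HelperYOU/GPC/<name>.lean` as `theorem <name>_thm : <name> := ...`; a module may take
other statements of this file as hypotheses.
-/

set_option autoImplicit false

namespace Pool.Agent.Helper42.GP

open Pool.Agent.Helper18.GP Relation Classical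

/-! ## A: angles -/

/-- **aBas.** `crs (a-z) (b-z) = ‖a-z‖ ‖b-z‖ sin` and `dt = ‖‖ ‖‖ cos` of `ag z a b`
(for `a = z` or `b = z` both sides vanish); signs. Proof. `Complex.sin_arg`, `Complex.cos_arg`
for `w = (b - z)/(a - z)`, `‖w‖ = ‖b-z‖/‖a-z‖`, `w.im = crs (a-z) (b-z) / ‖a-z‖^2`. -/
def aBas : Prop := ∀ z a b : ℂ,
  crs (a - z) (b - z) = ‖a - z‖ * ‖b - z‖ * Real.sin (ag z a b) ∧
  dt (a - z) (b - z) = ‖a - z‖ * ‖b - z‖ * Real.cos (ag z a b) ∧
  (0 < crs (a - z) (b - z) ↔ 0 < ag z a b ∧ ag z a b < Real.pi)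

/-- **aAdd.** additivity of angles. Proof. `(c-z)/(a-z) = (b-z)/(a-z) * ((c-z)/(b-z))`, and
`Complex.arg_mul_eq_add_arg` style lemmas: the sum of the two arguments is in `(0, 2π)`; its sine
has the sign of `crs (a-z) (c-z)` (aBas and the addition theorem, or: `exp (i (α+β))` is the
normalised product). First part: the sum is `< π`, as its sine is positive. -/
def aAdd : Prop := ∀ z a b c : ℂ, 0 < crs (a - z) (b - z) → 0 < crs (b - z) (c - z) →
  (0 < crs (a - z) (c - z) → ag z a c = ag z a b + ag z b c) ∧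
  (ag z a b + ag z b c < Real.pi → 0 < crs (a - z) (c - z)) ∧
  (0 < crs (a - z) (c - z) → ag z a b + ag z b c < Real.pi) ∧
  (0 < crs (c - z) (a - z) → ag z a b + ag z b c + ag z c a = 2 * Real.pi)

/-- **aTri.** angle sum of a triangle. Proof. the product of `(c-a)/(b-a)`, `(a-b)/(c-b)`,
`(b-c)/(a-c)` is `-1`; the three arguments are in `(0,π)`, so their sum is `π` modulo `2π` and in
`(0, 3π)`: it is `π`. -/
def aTri : Prop := ∀ a b c : ℂ, 0 < crs (b - a) (c - a) → ag a b c + ag b c a + ag c a b = Real.pi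

/-! ## C: cyclic combinatorics -/

/-- closed arc from `a` to `b` -/
noncomputable def Ac (V : Finset ℕ) (a b : ℕ) : Finset ℕ := V.filter fun x => x = a ∨ x = b ∨ Cc a x b

/-- **cArc.** (1) sides are edges, (2) an edge cuts off a triangulated polygon, (3) two triangulated
polygons glued along an edge. Proof. (1) else an edge crosses `{a,b}`, one of its ends is between
`a` and `b`. (2) `nc` is inherited; a nonadjacent pair in the arc is crossed by an edge `{c,d}` of
`V`; if `c` or `d` is not in the arc then `{c,d}` crosses `{v,w}` (or has an end `v` or `w` and does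
not cross the pair). (3) `nc`: edges are in one of the arcs; edges in different arcs do not
interleave. `mx`: pairs in one arc: there; else `{v,w}` crosses. Everything by `omega`. -/
def cArc : Prop := ∀ (V : Finset ℕ) (G : SimpleGraph ℕ),
  (Tri V G → ∀ a b, Cs V a b → G.Adj a b) ∧
  (Tri V G → ∀ v ∈ V, ∀ w ∈ V, G.Adj v w → Tri (Ac V v w) G) ∧
  (∀ v ∈ V, ∀ w ∈ V, G.Adj v w → Tri (Ac V v w) G → Tri (Ac V w v) G →
    (∀ x ∈ V, ∀ y ∈ V, Cc v x w → Cc w y v → ¬ G.Adj x y) → Tri V G)

/-- **cSplit.** angles when one cuts along an edge. Proof. a pair `(a,b)` in the sum for `ang V G P v`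
has both elements in `Ac V v w` or both in `Ac V w v`: else `a` is between `v` and `w`, `b` between
`w` and `v` and the edge `{a,b}` crosses `{v,w}`. The neighbours of `s` are in `Ac V v w` by `nc`. -/
def cSplit : Prop := ∀ (V : Finset ℕ) (G : SimpleGraph ℕ) (P : ℕ → ℂ), Tri V G →
  ∀ v ∈ V, ∀ w ∈ V, G.Adj v w →
  ang V G P v = ang (Ac V v w) G P v + ang (Ac V w v) G P v ∧
  ang V G P w = ang (Ac V v w) G P w + ang (Ac V w v) G P w ∧
  (∀ s ∈ V, Cc v s w → ang V G P s = ang (Ac V v w) G P s) ∧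
  (∀ s ∈ V, Cc w s v → ang V G P s = ang (Ac V w v) G P s)

/-- **cHalf.** (uses aAdd, cArc, cSplit) a vertex such that all other vertices are in an open
half plane. Proof. Strong induction on `V.card`. `nx` and `pv` are neighbours of `v` (cArc). If there
is a third neighbour `w`, cut along `{v,w}`: induction for `Ac V v w` (next `nx`, previous `w`) and
`Ac V w v` (next `w`, previous `pv`), then aAdd; `0 < crs (nx - v) (pv - v)` from
`0 < crs (nx - v) (w - v)`, `0 < crs (w - v) (pv - v)` and the half plane (three vectors in an open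
half plane: `crs n w * crs nx pv = crs n nx * crs w pv + crs n pv * crs nx w`). If not: `nx` and `pv`
are adjacent (an edge crossing `{nx, pv}` has the end `v`, and gives a third neighbour), the sum has
the only term `(nx, pv)`. -/
def cHalf : Prop := ∀ (V : Finset ℕ) (G : SimpleGraph ℕ) (P : ℕ → ℂ), Tri V G → SP V G P →
  ∀ v nx pv, Cs V v nx → Cs V pv v → nx ≠ pv → ∀ n : ℂ, (∀ w ∈ V, w ≠ v → 0 < crs n (P w - P v)) →
  ang V G P v = ag (P v) (P nx) (P pv) ∧ 0 < crs (P nx - P v) (P pv - P v)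

/-- **cEnum.** cyclic enumeration. Proof. `W` sorted (`Finset.orderEmbOfFin`),
`c j` = element number `j % W.card`. The sum: `j ↦ (c j, c (j+1))` is a bijection from
`range W.card` to the pairs with `Cs W`. -/
def cEnum : Prop := ∀ W : Finset ℕ, 2 ≤ W.card → ∃ c : ℕ → ℕ, (∀ j, c (j + W.card) = c j) ∧
  (∀ j, Cs W (c j) (c (j + 1))) ∧ (∀ w ∈ W, ∃ j < W.card, c j = w) ∧
  (∀ i < W.card, ∀ j < W.card, c i = c j → i = j) ∧
  ∀ f : ℕ → ℕ → ℝ, ∑ p ∈ (W ×ˢ W).filter (fun p => Cs W p.1 p.2), f p.1 p.2 =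
    ∑ j ∈ Finset.range W.card, f (c j) (c (j + 1))

/-! ## M: maps of complexes -/

/-- push forward of a point -/
noncomputable def push (V : Finset ℕ) (f : ℕ → ℕ) (x : ℕ → ℝ) : ℕ → ℝ :=
  fun w => ∑ v ∈ V.filter (fun v => f v = w), x v

/-- **mBas.** chains are concatenated, maps compose, chains and networks are mapped, faces.
Proof. Induction on chains. Network: `E' = E.map (Θ e.1, Θ e.2.1, r')` with the new lengths chosen by
`Classical.choose`; if `(x,y)` is joined by `EE E` then `(Θ x, Θ y)` is joined by `EE E'`; the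
`EvGen` relation is mapped (`EqvGen` induction). -/
def mBas : Prop := ∀ (V : Finset ℕ) (G : SimpleGraph ℕ) (P : ℕ → ℂ),
  (∀ x y z c d, Chn V G P x y c → Chn V G P y z d → Chn V G P x z (c + d)) ∧
  (∀ x y c, Chn V G P x y c → x ∈ Pt V G ∧ y ∈ Pt V G) ∧
  (∀ x ∈ Pt V G, ∀ y ∈ Pt V G, Shn G x y → Chn V G P x y ‖dvn V P x - dvn V P y‖) ∧
  ∀ (V' : Finset ℕ) (G' : SimpleGraph ℕ) (P' : ℕ → ℂ) (Θ : (ℕ → ℝ) → (ℕ → ℝ)),
    LM V G P V' G' P' Θ →
    (∀ x y c, Chn V G P x y c → ∃ c' ≤ c, Chn V' G' P' (Θ x) (Θ y) c') ∧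
    (∀ (V'' : Finset ℕ) (G'' : SimpleGraph ℕ) (P'' : ℕ → ℂ) (Θ' : (ℕ → ℝ) → (ℕ → ℝ)),
      LM V' G' P' V'' G'' P'' Θ' → LM V G P V'' G'' P'' (Θ' ∘ Θ)) ∧
    (∀ (K : ℕ → ℕ → Prop) (c : ℝ) (f : ℕ → ℕ), (∀ v ∈ V, (∃ w, K v w ∨ K w v) → Θ (dn v) = dn (f v)) →
      NW V G P K c → NW V' G' P' (fun s t => ∃ a ∈ V, ∃ b ∈ V, f a = s ∧ f b = t ∧ K a b) c)

/-- **mLab.** maps of labels. Proof. `push` is linear, `dvn V' P' (push V f x) = dvn V P x`, the
support of `push V f x` is the image of the support of `x`; `Shn G x y` gives `Shn G'` of the images;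
one step chain. -/
def mLab : Prop := ∀ (V : Finset ℕ) (G : SimpleGraph ℕ) (P : ℕ → ℂ) (V' : Finset ℕ)
  (G' : SimpleGraph ℕ) (P' : ℕ → ℂ) (f : ℕ → ℕ), (∀ v ∈ V, f v ∈ V') → (∀ v ∈ V, P' (f v) = P v) →
  (∀ a ∈ V, ∀ b ∈ V, G.Adj a b → f a ≠ f b → G'.Adj (f a) (f b)) →
  LM V G P V' G' P' (push V f) ∧ ∀ v ∈ V, push V f (dn v) = dn (f v)

/-- **mRem.** removal of a vertex `z` whose neighbours are in a clique `W` and whose position is a
convex combination of `W`. Proof. `Θ x v = x v + x z * w v` for `v ≠ z` (`w v = 0` outside `W`),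
`Θ x z = 0`; affine, keeps positions; a clique with `z` goes to the clique `W ∪` (clique without
`z`) `= W`. -/
def mRem : Prop := ∀ (V : Finset ℕ) (G : SimpleGraph ℕ) (P : ℕ → ℂ) (z : ℕ) (W : Finset ℕ)
  (w : ℕ → ℝ), z ∈ V → W ⊆ V → z ∉ W → (∀ a ∈ W, ∀ b ∈ W, a ≠ b → G.Adj a b) →
  (∀ v ∈ V, G.Adj z v → v ∈ W) → (∀ v ∈ W, 0 ≤ w v) → ∑ v ∈ W, w v = 1 →
  P z = ∑ v ∈ W, (w v : ℂ) * P v →
  ∃ Θ, LM V G P (V.erase z) G P Θ ∧ ∀ v ∈ V, v ≠ z → Θ (dn v) = dn v

/-- **mFlip.** a flip. The edge `ac` is replaced by `bd`; the common neighbours of `a` and `c` are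
`b` and `d`, which are not adjacent. Proof. `lam x = min (x a / (1-s)) (x c / s)` and
`Θ x = x + lam x * ((1-t) δ_b + t δ_d - (1-s) δ_a - s δ_c)`: position and total mass are kept,
`Θ x ≥ 0`, and `Θ x a = 0` or `Θ x c = 0`. If the support of `x` does not contain both `a` and `c`
then `lam x = 0`. Else the support is contained in `{a,c,b}` or in `{a,c,d}`, the support of `Θ x` in
`{a,b,d}` or `{c,b,d}`. If `Shn G x y`: when the common face does not contain both `a` and `c`, one
step. Else `x`, `y` are supported in `{a,c,b}` (say). Let `g u = u a * s - u c * (1-s)` (`g u ≥ 0` iff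
`Θ u c = 0`). If `g x` and `g y` do not have strictly opposite signs, `Θ x` and `Θ y` are in a common
face: one step, the same length. Else take `u = (1-r) x + r y` with `g u = 0`, `0 < r < 1`:
`Θ x, Θ u` share a face, `Θ u, Θ y` too, `dvn u` is on the segment: the two lengths add up. -/
def mFlip : Prop := ∀ (V : Finset ℕ) (G G' : SimpleGraph ℕ) (P : ℕ → ℂ) (a b c d : ℕ) (s t : ℝ),
  a ∈ V → b ∈ V → c ∈ V → d ∈ V → a ≠ b → a ≠ c → a ≠ d → b ≠ c → b ≠ d → c ≠ d →
  G.Adj a b → G.Adj b c → G.Adj c d → G.Adj d a → G.Adj a c → ¬ G.Adj b d →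
  (∀ v ∈ V, G.Adj a v → G.Adj v c → v = b ∨ v = d) → 0 < s → s < 1 → 0 ≤ t → t ≤ 1 →
  (1 - s : ℝ) * P a + (s : ℝ) * P c = (1 - t : ℝ) * P b + (t : ℝ) * P d →
  (∀ x y, G'.Adj x y ↔ (G.Adj x y ∧ ¬ (x = a ∧ y = c) ∧ ¬ (x = c ∧ y = a)) ∨
    (x = b ∧ y = d) ∨ (x = d ∧ y = b)) →
  ∃ Θ, LM V G P V G' P Θ ∧ ∀ v ∈ V, Θ (dn v) = dn v

/-- image graph -/
def imG (V : Finset ℕ) (G : SimpleGraph ℕ) (f : ℕ → ℕ) : SimpleGraph ℕ :=
  SimpleGraph.fromRel fun x y => ∃ a ∈ V, ∃ b ∈ V, G.Adj a b ∧ f a = x ∧ f b = y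

/-- **cLab.** (uses mLab) relabelling which respects the cyclic order. Proof. Injectivity on `V`
gives `(imG V G f).Adj (f a) (f b) ↔ G.Adj a b` for `a, b ∈ V`; `Cc (f a) (f b) (f c) ↔ Cc a b c`
for `a, b, c ∈ V` (if `¬ Cc a b c` and `a, b, c` are different then `Cc a c b`). -/
def cLab : Prop := ∀ (V : Finset ℕ) (G : SimpleGraph ℕ) (P P' : ℕ → ℂ) (f : ℕ → ℕ),
  (∀ a ∈ V, ∀ b ∈ V, f a = f b → a = b) →
  (∀ a ∈ V, ∀ b ∈ V, ∀ c ∈ V, Cc a b c → Cc (f a) (f b) (f c)) → (∀ a ∈ V, P' (f a) = P a) →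
  (Tri V G → Tri (V.image f) (imG V G f)) ∧ (SP V G P → SP (V.image f) (imG V G f) P') ∧
  (∀ v ∈ V, ang (V.image f) (imG V G f) P' (f v) = ang V G P v) ∧
  LM V G P (V.image f) (imG V G f) P' (push V f) ∧ ∀ v ∈ V, push V f (dn v) = dn (f v)

/-! ## Z: zip -/

/-- **zStar.** (uses aBas, aAdd, aTri) purely geometric. Proof. Let `α j = ag z (c j) (c (j+1))`,
`β j = ag (c j) (c (j+1)) z`, `γ j = ag (c (j+1)) z (c j)`: all in `(0,π)`, `α + β + γ = π` (aTri).
`θ j = β (j+1) + γ j` is the angle at `c (j+1)`; `∑ θ = M π - 2 π`. If `θ j < π` then (aAdd at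
`c (j+1)`) `0 < crs (c (j+2) - c (j+1)) (c j - c (j+1))`, that is
`0 < crs (c (j+1) - c j) (c (j+2) - c j)`: call `j` convex. If at most two `j < M` are convex then
`∑ θ > (M-2) π` or (no convex one) `≥ M π`: contradiction; so there are three convex indices, and as
`4 ≤ M` two of them, `j` and `k`, differ by at least `2` cyclically. If
`α j + α (j+1) ≥ π` and `α k + α (k+1) ≥ π` then both are `> π` (`= π` contradicts
`crs (c j - z) (c (j+2) - z) ≠ 0` by aBas) and the four indices are different modulo `M`: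
`∑ α > 2 π`. So one of them is `< π`, aAdd gives `0 < crs (c j - z) (c (j+2) - z)`. -/
def zStar : Prop := ∀ (z : ℂ) (c : ℕ → ℂ) (M : ℕ), 4 ≤ M → (∀ j, c (j + M) = c j) →
  (∀ j, 0 < crs (c j - z) (c (j + 1) - z)) →
  ∑ j ∈ Finset.range M, ag z (c j) (c (j + 1)) = 2 * Real.pi →
  (∀ j, crs (c j - z) (c (j + 2) - z) ≠ 0) →
  ∃ j, 0 < crs (c (j + 1) - c j) (c (j + 2) - c j) ∧ 0 < crs (c j - z) (c (j + 2) - z)

/-- `G` with the edge `ps` -/
def adE (G : SimpleGraph ℕ) (p s : ℕ) : SimpleGraph ℕ :=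
  G ⊔ SimpleGraph.fromRel fun a b => a = p ∧ b = s

/-- **zFlipC.** Proof. `p`, `w`, `s` are consecutive in `W`. `nc` and `face` for the new edge
`{p,s}`: an edge crossing `{p,s}` contradicts the old `face`; `{p,s}` does not cross pairs of
`W.erase w` since only `w ∈ W` is between `p` and `s`. `side`: the new consecutive pair is `(p,s)`
(the others are old). `mx`: pairs not both in `W`: old; pairs `{w,b}` with `b ∈ W`, `b ≠ p, s`:
crossed by `{p,s}`. `pos`: a triangle with the edge `{p,s}` and third vertex `x`: `x ∈ W.erase w` is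
excluded, `x = w`: hypothesis, `x ∉ W`: `x` is between two consecutive `c, d ∈ W` and one of the
edges `{x,p}`, `{x,s}` crosses the pair `{c,d}` (or `{p, s} = {c, d}`, which means `W.card = 3` or
`x` between `p` and `s`, and then `{x,p}` or `{x,s}` crosses `{p,w}` or `{w,s}`); a triangle in
`W` (three different elements) does not exist in the old `G` because only consecutive elements of `W`
are adjacent (old `face`, `4 ≤ W.card`). `st`: hypothesis. `tot`: aAdd, the pairs `(p,w)`, `(w,s)`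
are replaced by `(p,s)`. -/
def zFlipC : Prop := ∀ (U : Finset ℕ) (G : SimpleGraph ℕ) (W : Finset ℕ) (P : ℕ → ℂ) (z : ℂ),
  PS U G W P z → 4 ≤ W.card → ∀ p w s, Cs W p w → Cs W w s →
  0 < crs (P w - P p) (P s - P p) → 0 < crs (P p - z) (P s - z) →
  PS U (adE G p s) (W.erase w) P z

/-- **zFlipA.** (uses aAdd, zFlipC) the angles do not change. Proof. The first sum for `v = w` gets
the pair `(s,p)`, for `v = p` the pair `(w,s)`, for `v = s` the pair `(p,w)` (no other triangle
contains `{p,s}`, see zFlipC), and no pair is lost (no triangle of `G` is inside `W`). At `w`: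
`ag w s z + ag w z p = ag w s p`. At `p`: `ag p w z = ag p w s + ag p s z`. At `s`:
`ag s z w = ag s z p + ag s p w`. Other `v`: nothing changes. -/
def zFlipA : Prop := ∀ (U : Finset ℕ) (G : SimpleGraph ℕ) (W : Finset ℕ) (P : ℕ → ℂ) (z : ℂ),
  PS U G W P z → 4 ≤ W.card → ∀ p w s, Cs W p w → Cs W w s →
  0 < crs (P w - P p) (P s - P p) → 0 < crs (P p - z) (P s - z) →
  ∀ v ∈ U, tot U (adE G p s) (W.erase w) P z v = tot U G W P z v

/-- **zFlipM.** (uses mFlip) Proof. `a = z`, `c = w`, `b = p`, `d = s` in mFlip, for the complexes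
`cone`. Common neighbours of `z` and `w` are in `W` and adjacent to `w`: only `p` and `s`. `p` and
`s` are not adjacent in `G` (`face` and `4 ≤ W.card`). The segments `zw` and `ps` cross: `s = `
`crs (P p - z) (P s - z) / (crs (P p - z) (P s - z) + crs (P w - P p) (P s - P p))` is replaced by the
corresponding formula, from `0 < crs (P p - z) (P w - z)`, `0 < crs (P w - z) (P s - z)` and the
hypotheses. -/
def zFlipM : Prop := ∀ (U : Finset ℕ) (G : SimpleGraph ℕ) (W : Finset ℕ) (P : ℕ → ℂ) (z : ℕ),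
  z ∉ U → PS U G W P (P z) → 4 ≤ W.card → ∀ p w s, Cs W p w → Cs W w s →
  0 < crs (P w - P p) (P s - P p) → 0 < crs (P p - P z) (P s - P z) →
  ∃ Θ, LM (insert z U) (cone U G W z) P (insert z U) (cone U (adE G p s) (W.erase w) z) P Θ ∧
    ∀ v ∈ U, Θ (dn v) = dn v

/-- **zEnd.** (uses aAdd, mRem) three neighbours. Proof. `W = {a,b,c}` with `Cc a b c`: all pairs
adjacent (`side`), `st` gives three positive determinants, `P z` is the convex combination with
weights `crs (b-z) (c-z)` etc. divided by their sum, the triangle `(a,b,c)` is positive (its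
determinant is the sum). `mx` since pairs in `W` are adjacent. Angles: at `a`:
`ag a b c = ag a b z + ag a z c` (aAdd), and the pair `(b,c)` is the only one missing in the first
sum of `tot`. mRem for `cone`, then the identity from `cone U G W z` to `G` on `U`. -/
def zEnd : Prop := ∀ (U : Finset ℕ) (G : SimpleGraph ℕ) (W : Finset ℕ) (P : ℕ → ℂ) (z : ℕ),
  z ∉ U → PS U G W P (P z) → W.card = 3 →
  Tri U G ∧ SP U G P ∧ (∀ v ∈ U, ang U G P v = tot U G W P (P z) v) ∧
  ∃ Θ, LM (insert z U) (cone U G W z) P U G P Θ ∧ ∀ v ∈ U, Θ (dn v) = dn v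

/-- the labels after the merge of `0` and `2`, without `1` -/
noncomputable def uS (m : ℕ) : Finset ℕ := (Finset.range m).filter fun v => 2 ≤ v

/-- merge of `0` and `2` -/
def mg (v : ℕ) : ℕ := if v = 0 then 2 else v

/-- merged graph -/
def gS (G : SimpleGraph ℕ) : SimpleGraph ℕ :=
  SimpleGraph.fromRel fun a b => 2 ≤ a ∧ 2 ≤ b ∧ (G.Adj a b ∨ (a = 2 ∧ G.Adj 0 b))

/-- merged link of `1` -/
noncomputable def wS (m : ℕ) (G : SimpleGraph ℕ) : Finset ℕ :=
  ((Finset.range m).filter fun v => G.Adj 1 v).image mg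

/-- **zStart.** (uses aBas, cArc) Proof. `N` = neighbours of `1`; `0, 2 ∈ N` (cArc). (i) `a, b ∈ N`
with `Cc 1 a b` and no element of `N` in between are adjacent (an edge crossing `{a,b}` would cross
`{1,a}` or `{1,b}`, or end in `1`). So `ang _ G P 1` is the sum over the consecutive pairs of `N`,
each term is `< π` by `SP`: `N.card ≥ 4`, `3 ≤ (wS m G).card`. (ii) `0` and `2` are not adjacent
(`{0,2}` would cross `{1,c}` for the other `c ∈ N`), and have no common neighbour `a ≠ 1` (each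
`c ∈ N` other than `0, 2, a` would give a crossing of `{1,c}` with `{0,a}` or `{2,a}`).
`nc`: a crossing of merged edges comes from a crossing (`{2,b}` from `{0,b}`: `0 < 2 < b`).
`face`: a merged edge separating two elements of `W` comes from an edge separating `1` from an
element of `N`. `side`: (i). `mx`: `{a,b}` nonadjacent, `2 ≤ a < b`, crossed in `G` by `{c,d}`.
If `c = 1`: `a < d < b`, `d ∈ N`. If `a ∉ N`: `a` is between consecutive `e, e' ∈ N`, `e < a < e' ≤ d`,
`{e,e'}` crosses `{a,b}`; the same for `b ∉ N`, where `e' = 0` is possible, then `{e,0}` is merged to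
`{e,2}`, which crosses `{a,b}` if `a ≠ 2`. If `c = 0`: `a < d < b`, `{2,d}` crosses `{a,b}` if
`a ≠ 2`. If `a = 2`: `b ∉ N`; `b` is between consecutive `e, e' ∈ N`. `e ≠ 2`, `e' ≠ 0`: `{e,e'}`
crosses `{2,b}`. `e = 2`: `{2,b}` is crossed by an edge `{c,d}` of `G`, both ends in the closed
arc from `2` to `e'`. `e' = 0`: `{0,b}` is crossed by an edge with both ends in the arc from `e` to
`0`. `pos`: a merged triangle with vertex `2 < b < c` comes from `(2,b,c)` or `(0,b,c)`, or its edges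
come from `{2,b}, {0,c}` and then `N = {0,2,b,c}`: inside `W`. `st`, `tot`: the pairs `Cs W a b`
correspond to the consecutive pairs of `N`. -/
def zStart : Prop := ∀ (m : ℕ) (G : SimpleGraph ℕ) (P : ℕ → ℂ), 3 ≤ m → Tri (Finset.range m) G →
  SP (Finset.range m) G P → P 0 = P 2 → ang (Finset.range m) G P 1 = 2 * Real.pi →
  PS (uS m) (gS G) (wS m G) P (P 1)

/-- **zStartA.** (uses zStart and the facts in its proof) Proof. Bijection of the index sets: the
pairs for `ang _ G P v`, `v ≠ 0, 1, 2`, with both elements `≠ 1` correspond to the pairs of the first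
sum of `tot` (replace `0` by `2`), the ones with `1` to the two other sums. For `v = 2`: the pairs for
`ang _ G P 0` and `ang _ G P 2` (no double edges by (ii)). -/
def zStartA : Prop := ∀ (m : ℕ) (G : SimpleGraph ℕ) (P : ℕ → ℂ), 3 ≤ m → Tri (Finset.range m) G →
  SP (Finset.range m) G P → P 0 = P 2 → ang (Finset.range m) G P 1 = 2 * Real.pi →
  ∀ v ∈ uS m, tot (uS m) (gS G) (wS m G) P (P 1) v =
    if v = 2 then ang (Finset.range m) G P 0 + ang (Finset.range m) G P 2
    else ang (Finset.range m) G P v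

/-- **zAll.** (uses cEnum, zStar, zFlipC, zFlipA, zFlipM, zEnd, mBas) Proof. Induction on `W.card`;
if `4 ≤ W.card`: cEnum and zStar (with `P ∘ c`) give `p, w, s` for the flip. Genericity:
`crs (P (c j) - P z) (P (c (j+2)) - P z) ≠ 0` by `Gen` (`P (c j) ≠ P z` by `st`,
`P (c j) ≠ P (c (j+2))` because `0 < crs (c j - z) (c (j+1) - z)`,
`0 < crs (c (j+1) - z) (c (j+2) - z)`). -/
def zAll : Prop := ∀ (Q : Set ℂ), Gen Q → ∀ (U : Finset ℕ) (G : SimpleGraph ℕ) (W : Finset ℕ)
  (P : ℕ → ℂ) (z : ℕ), z ∉ U → (∀ v ∈ insert z U, P v ∈ Q) → PS U G W P (P z) →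
  ∃ G' : SimpleGraph ℕ, Tri U G' ∧ SP U G' P ∧ (∀ v ∈ U, ang U G' P v = tot U G W P (P z) v) ∧
  ∃ Θ, LM (insert z U) (cone U G W z) P U G' P Θ ∧ ∀ v ∈ U, Θ (dn v) = dn v

/-! ## R: rules for words -/

/-- **rBas.** rotation and forgetting. Proof. Rotation: cLab with `f s = (s + l2.length) % n`,
`n = (l1 ++ l2).length`; the angle and tag conditions are transported, mBas for the network (`f` as
label map). Forgetting: clear. -/
def rBas : Prop := (∀ l₁ l₂ c, Pol (l₁ ++ l₂) c → Pol (l₂ ++ l₁) c) ∧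
  (∀ L L' c c', c ≤ c' → List.Forall₂ (fun i j : It => j.p = i.p ∧ (j.a = i.a ∨ j.a = none) ∧
    (j.g = i.g ∨ j.g = 0)) L L' → Pol L c → Pol L' c')

/-- new tags -/
def rt (a b τ : ℕ) (i : It) : It := if i.g ≠ 0 ∧ (i.g = a ∨ i.g = b) then ⟨i.p, i.a, τ⟩ else i

/-- **rConn.** connect two consecutive vertices. Proof. `0` and `1` are adjacent (cArc), so
`(dn 0, dn 1, ‖P 0 - P 1‖)` is a chain; add it to the network. Two vertices with the same new tag
`τ` are both connected to `0` or `1`. -/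
def rConn : Prop := ∀ (u v : It) (l : List It) (c : ℝ) (τ : ℕ), Pol (u :: v :: l) c → τ ≠ 0 →
  (∀ i ∈ l, i.g = τ → i.g = u.g ∨ i.g = v.g) →
  Pol (⟨u.p, u.a, τ⟩ :: ⟨v.p, v.a, τ⟩ :: l.map (rt u.g v.g τ)) (c + ‖u.p - v.p‖)

/-- **rTag.** rename tags. -/
def rTag : Prop := ∀ (L : List It) (c : ℝ) (f : ℕ → ℕ), f 0 = 0 →
  (∀ x y, f x = f y → f x ≠ 0 → x = y) → Pol L c → Pol (L.map fun i => ⟨i.p, i.a, f i.g⟩) c

/-- **rGlue.** (uses cArc, cSplit, cLab, mLab, mBas) glue two polygons along the side from the last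
to the first vertex. Proof. `n₁ = l₁.length + 2`, `n₂ = l₂.length + 2`, `n = n₁ + n₂ - 2`. Relabel the
second polygon by `f s = s + (n₁ - 1)` for `s < n₂ - 1`, `f (n₂ - 1) = 0`. `G` = edges of `G₁` in
`range n₁` and edges of `imG _ G₂ f`. `Ac (range n) 0 (n₁-1) = range n₁`,
`Ac (range n) (n₁-1) 0 = (range n₂).image f`; on each of the two sets `G` is the given graph
(`{0, n₁-1}` is an edge of both, by cArc). cArc (3), cSplit. Networks: the union of the two images
(mLab with the identity and with `f`). Tags: two vertices with the same tag in the new word are both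
in one of the old words, or one of them is `0` or `n₁ - 1` with a tag coming from the other word. -/
def rGlue : Prop := ∀ (a b a' b' : It) (l₁ l₂ : List It) (c₁ c₂ : ℝ),
  Pol (a :: l₁ ++ [b]) c₁ → Pol (b' :: l₂ ++ [a']) c₂ → a.p = a'.p → b.p = b'.p →
  (a.g = 0 ∨ a'.g = 0) → (b.g = 0 ∨ b'.g = 0) →
  (∀ i ∈ a :: l₁ ++ [b], ∀ j ∈ b' :: l₂ ++ [a'], i.g ≠ 0 → j.g ≠ 0 → i.g ≠ j.g) →
  Pol (a.add a' :: l₁ ++ [b.add b'] ++ l₂) (c₁ + c₂)

/-- **rZip.** (uses zStart, zStartA, zAll, mLab, cLab, mBas) Proof. zStart and zStartA; mLab with `mg`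
from the polygon to `cone (uS m) (gS G) (wS m G) 1`; zAll; cLab with `f s = s - 2` from `uS m` to
`range (m - 2)`. Network: mBas with the composition of the maps, `f v = mg v - 2` on labels
(`v ≠ 1`: restrict `K` first to pairs without `1`; a tag of `1` is lost). -/
def rZip : Prop := ∀ (Q : Set ℂ), Gen Q → ∀ (u z v : It) (l : List It) (c : ℝ),
  (∀ i ∈ u :: z :: v :: l, i.p ∈ Q) → Pol (u :: z :: v :: l) c → u.p = v.p →
  z.a = some (2 * Real.pi) → (u.g = 0 ∨ v.g = 0) → Pol (u.add v :: l) c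

/-! ## F: gap polygons -/

/-- positive triangulations of the path from `i` to `j` with the chord `ij` -/
inductive Fil (v : ℕ → ℂ) : ℕ → ℕ → Prop
  | edge (i : ℕ) : Fil v i (i + 1)
  | tri (i t j : ℕ) (h1 : Fil v i t) (h2 : Fil v t j) (h : 0 < crs (v t - v i) (v j - v i)) :
      Fil v i j

/-- left turning generic path without strict crossings -/
structure Pth (v : ℕ → ℂ) (M : ℕ) : Prop where
  lt : ∀ s, 0 < s → s < M → 0 < crs (v s - v (s - 1)) (v (s + 1) - v s)
  inj : ∀ s ≤ M, ∀ t ≤ M, v s = v t → s = t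
  gen : Gen {x | ∃ s ≤ M, x = v s}
  nx : ∀ s t, s < t → t < M → ¬ XX (v s) (v (s + 1)) (v t) (v (t + 1))

/-- **fTrace.** a positive triangulation of the path up to `M - 1` gives an apex for the chord `0M`.
Proof. Suppose not: `h x := crs (v M - v 0) (x - v 0)` satisfies `h (v t) > 0` for `0 < t < M`
(`≥ 0`, and `≠ 0` by `gen`), `h (v 0) = h (v M) = 0`. `q = v (M-1)`, `r = v M`, `d = r - q`,
`g s := crs d (v s - q)`. (B) claim by induction on `Fil v i j` (`i < j ≤ M - 1`): it is impossible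
that `g i < 0 < g j`, `0 < crs (v i - v j) (r - v j)`, `crs (v i - v j) (q - v j) ≤ 0` (and
`i, j` are the ends). For an edge `j = i + 1` with the last inequality strict this is
`XX (v i) (v j) q r`, against `nx` (equality is impossible by `gen` unless `q` is `v i` or `v j`, but
`g i, g j ≠ 0`). For `tri i t j`: `g t ≠ 0` by `gen` (`t ≠ M - 1, M`). If `g t < 0` use the induction
hypothesis for `(t,j)`: (B1) `0 < crs (v t - v j) (r - v j)`: otherwise
`r - v j = α (v i - v j) + β (v t - v j)` with `α ≥ 0`, `β > 0`, and `g r = 0` gives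
`(1-α-β) g j = - α g i - β g t > 0`, so `r` is a convex combination of `v i, v t, v j` and
`0 = h r ≥ β h (v t) + (1-α-β) h (v j) > 0`. (B2) `crs (v t - v j) (q - v j) ≤ 0`: with
`k x = crs (v t - v j) (x - v j)`, `k₀ x = crs (v i - v j) (x - v j)`:
`k q * (g j - g i) = k₀ q * (g j - g t) + g j * k (v i)`, `k (v i) < 0`. If `0 < g t` use `(i,t)`,
the same with the roles of `i` and `j` exchanged. (A) induction on `Fil v i (M-1)`: `g i < 0` is
impossible, where `i < M - 1`. For the edge `i = M - 2`: `g (M-2) > 0` by `lt`. For `tri i t (M-1)`: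
if `g t < 0`: induction for `(t, M-1)`. If `g t > 0`: (B) for `(i,t)`: `q = v (M-1)` is on the inner
side of `v i v t` by `h`, and `0 < crs (v i - v t) (r - v t)`: otherwise
`r - q = α (v i - q) + β (v t - q)` with `α, β > 0`, `α + β ≤ 1`, and `0 = h r > 0`. Finally
`g 0 < 0`: `g 0 = crs (r - q) (v 0 - q) = - h q`. -/
def fTrace : Prop := ∀ (v : ℕ → ℂ) (M : ℕ), 2 ≤ M → Pth v M → Fil v 0 (M - 1) →
  ∃ t, 0 < t ∧ t < M ∧ 0 < crs (v t - v 0) (v M - v 0)

/-- **fApex.** (uses fTrace) extremal apex. Proof. `Pth` is inherited by subpaths `s ↦ v (s + i)`.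
Strong induction on `j - i`: all shorter chords have an apex, so `Fil v i (j-1)`; fTrace for the
subpath gives an apex; take the one with the largest `crs (v t - v i) (v j - v i)`. -/
def fApex : Prop := ∀ (v : ℕ → ℂ) (M : ℕ), Pth v M → ∀ i j, i + 2 ≤ j → j ≤ M →
  ∃ t, i < t ∧ t < j ∧ 0 < crs (v t - v i) (v j - v i) ∧
    ∀ s, i < s → s < j → crs (v s - v i) (v j - v i) ≤ crs (v t - v i) (v j - v i)

/-- **fBuild.** (uses cArc, cSplit, cHalf, aAdd, fApex) Proof. Strong induction on `j - i`. `j = i+1`: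
one edge. Otherwise the apex `t` of fApex, graphs `G₁` on `[i,t]`, `G₂` on `[t,j]`;
`G` = edges of `G₁` in `[i,t]`, edges of `G₂` in `[t,j]` and `{i,j}`. Tri: cArc (3) twice (or direct).
Angles at `s ≠ t`: cSplit along `{i,t}` or `{t,j}` (if they are not sides). At `t`: cSplit twice:
the angle is `ang [i,t] G₁ t + ag (v t) (v j) (v i) + ang [t,j] G₂ t`. With `n = v j - v i` all
`w ≠ t` in `[i,j]` satisfy `0 < crs n (v w - v t)` (`t` is extremal, `gen` excludes equality), so
cHalf computes the two outer terms (they are `ag (v t) (v i) (v (t-1))` if `i < t - 1` and `0` if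
`i = t - 1`, similarly on the other side), and aAdd (twice) adds them up, the needed positivity comes
from the half plane (see cHalf). -/
def fBuild : Prop := ∀ (v : ℕ → ℂ) (M : ℕ), Pth v M → ∀ i j, i < j → j ≤ M →
  ∃ G : SimpleGraph ℕ, Tri (Finset.Icc i j) G ∧ SP (Finset.Icc i j) G v ∧
    ∀ s, i < s → s < j → ang (Finset.Icc i j) G v s = ag (v s) (v (s + 1)) (v (s - 1))

/-! ## T: transport to `Fin N` -/

/-- **tFin.** Proof. `N = L.length`; `G' a b = G.Adj a.val b.val`, `P' = P ∘ val`. For `Fin N`: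
`Ccw a b c ↔ Cc a.val b.val c.val` (`Ccw_iff` in Helper13/GP/Comb.lean or `omega`), so `IsTri univ G'`,
`Wk univ G' P'`, `Cfg univ G' P' univ (fun _ _ => False)`. A point `x` in `Pt (range N) G` restricts
to a point `x ∘ val` of `Pts univ G'`, chains go to chains of the same length; the network goes to a
list `E'` of pairs with `dK ≤ r` (`csInf_le`, bounded below as `Ch` lengths are nonnegative), so
`Ln univ G' P' univ ≤ c`. `stG` and `stMAtt` give `m` with `rho * mw m ≤ c`, and
`‖P a - P b‖ ≤ dV a b` by `MetP.low`. -/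
def tFin : Prop := stG → stMet → stMAtt → ∀ (L : List It) (c : ℝ), Pol L c → (∀ i ∈ L, i.g = 1) →
  ∃ m : Finset (ℕ × ℕ), (∀ e ∈ m, e.1 < L.length ∧ e.2 < L.length) ∧
    (∀ s < L.length, ∀ t < L.length, EqvGen (fun x y => (x, y) ∈ m) s t) ∧
    ∀ p : ℕ → ℂ, (∀ s i, L[s]? = some i → p s = i.p) →
      rho * (∑ e ∈ m, ‖p e.1 - p e.2‖) ≤ c

/-! ## P: planar part -/

/-- labels of the tree with root edge `y` -/
def AL (y : ℕ) (t : BT) : List ℕ := y :: t.labs

/-- the main result of the tree part: generic good trees (helper42 proves this from the rules) -/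
def tGen : Prop := ∀ (P : ℕ → ℂ) (y : ℕ) (t : BT), (AL y t).Nodup →
  (∀ i ∈ AL y t, ∀ j ∈ AL y t, P i = P j → i = j) → Gen {x | ∃ i ∈ AL y t, x = P i} →
  t.Good P y → (∀ e ∈ t.eds y, ∀ f ∈ t.eds y, ¬ XX (P e.1) (P e.2) (P f.1) (P f.2)) → TIneq P y t

/-- edges without common end are disjoint segments -/
def DJ (P : ℕ → ℂ) (y : ℕ) (t : BT) : Prop := ∀ e ∈ t.eds y, ∀ f ∈ t.eds y,
  e.1 ≠ f.1 → e.1 ≠ f.2 → e.2 ≠ f.1 → e.2 ≠ f.2 →
  Disjoint (segment ℝ (P e.1) (P e.2)) (segment ℝ (P f.1) (P f.2))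

/-- **pPert.** perturbation: `tGen` implies the inequality for all good trees with disjoint edges.
Proof. `P' = P + ε q` with `q i = 2^i + 4^i * I`. For `a ≠ b`, `c ≠ d`, `{a,b} ≠ {c,d}`:
`crs (P' a - P' b) (P' c - P' d)` is a polynomial of degree two in `ε` with leading coefficient
`(2^a - 2^b) (2^c - 2^d) (2^c + 2^d - 2^a - 2^b) ≠ 0`, so for all but finitely many `ε` the points
are different and `Gen`. `Good` is an open condition (finitely many strict inequalities, continuous in
`ε`). Strict crossings: edges with a common end never cross strictly; for edges without a common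
end the segments are disjoint and compact, so have positive distance, and do not meet for small `ε`
(`XX` gives a common point). So there is a sequence `ε n → 0` with `TIneq (P + ε n q) y t`; the sets
`m` are subsets of a finite set (pairs of labels), so one `m` occurs infinitely often; take the
limit. -/
def pPert : Prop := tGen → ∀ (P : ℕ → ℂ) (y : ℕ) (t : BT), (AL y t).Nodup → t.Good P y →
  DJ P y t → TIneq P y t

/-- `L` is at most the length of every network that connects `A` -/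
def MN (A : Finset ℂ) (L : ℝ) : Prop :=
  ∀ E : List (ℂ × ℂ), NConn E (A : Set ℂ) → L ≤ nlen dist E

open Pool.Agent.Helper96.GPL in
/-- shortest tree of `A`, steiner points have degree at least three -/
structure MT (A : Finset ℂ) {k : ℕ} (H : SimpleGraph (Fin k)) (x : Fin k → ℂ) : Prop where
  tn : TN Set.univ (A : Set ℂ) H x
  deg : ∀ i, x i ∉ A → 3 ≤ (Finset.univ.filter fun j => H.Adj i j).card
  mn : MN A (tlen dist H x)

/-- **pMin.** (uses lMin, lDeg, lBound of Helper96/GPL/St.lean, proved in Helper77/GPL/MIN,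
Helper81/GPL/T4, Helper77/GPL/B) Proof. `S` = closed ball around `0` containing `A`; lMin gives a
shortest network in `S`; a network in `ℂ` is mapped to one in `S` by the nearest point projection
(`x ↦ x` if `‖x‖ ≤ R`, else `R x / ‖x‖`, which is 1-Lipschitz), which fixes `A`. lDeg with
`S = univ` gives the tree. -/
def pMin : Prop := ∀ A : Finset ℂ, A.Nonempty →
  ∃ (k : ℕ) (H : SimpleGraph (Fin k)) (x : Fin k → ℂ), MT A H x

/-- **pShort.** two edges at `o` with angle less than 120 degrees can be shortened. Proof.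
`u = (a-o)/‖a-o‖`, `v = (b-o)/‖b-o‖`, `w = u + v`, `‖w‖^2 = 2 + 2 dt u v > 1`. `s = o + ε w`,
`E' = (s,o) :: (s,a) :: (s,b) :: E`: the length changes by
`ε ‖w‖ + (‖s-a‖ - ‖o-a‖) + (‖s-b‖ - ‖o-b‖)`, and
`‖a - o - ε w‖ ≤ ‖a-o‖ - ε dt w u + ε^2 ‖w‖^2 / (2 ‖a-o‖)` (square it; for small `ε` the right side is
nonnegative), `dt w u + dt w v = ‖w‖^2 > ‖w‖`. Connected: `o` - `s` - `a`, `o` - `s` - `b`. -/
def pShort : Prop := ∀ (o a b : ℂ) (E : List (ℂ × ℂ)), a ≠ o → b ≠ o →
  - (‖a - o‖ * ‖b - o‖) < 2 * dt (a - o) (b - o) →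
  ∃ E' : List (ℂ × ℂ), nlen dist E' < nlen dist ((o, a) :: (o, b) :: E) ∧
    ∀ A : Set ℂ, NConn ((o, a) :: (o, b) :: E) A → NConn E' A

/-- **pAng.** (uses pShort, lTreeList of Helper96/GPL/St.lean) angles in a shortest tree. Proof. The
network of lTreeList (or directly the list of the pairs `(x u, x v)`, `u < v`, `H.Adj u v`; one may
reverse single pairs and permute the list, which does not change `nlen` and `NConn`) has the form
`(x i, x j) :: (x i, x k) :: E`. -/
def pAng : Prop := ∀ (A : Finset ℂ) (n : ℕ) (H : SimpleGraph (Fin n)) (x : Fin n → ℂ), MT A H x →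
  ∀ i j k, H.Adj i j → H.Adj i k → j ≠ k →
  2 * dt (x j - x i) (x k - x i) ≤ - (‖x j - x i‖ * ‖x k - x i‖)

/-- **pDisj.** (uses pShort) disjoint edges in a shortest tree. Proof. Let `o` be a common point of
the segments `x i x j` and `x k x l` (the four nodes are different, so are their positions). Replace
`(x i, x j)` by `(o, x i), (o, x j)` and `(x k, x l)` by `(o, x k), (o, x l)`, same length and still
connected; drop pairs `(o, o)` (at most one of the two segments has `o` as an end, since positions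
are different). If `o` is not an end: four vectors `±u`, `±v`, two of them (one from each segment)
have `dt ≥ 0`: pShort. If `o = x k` (say): the vector `x l - o` and one of `x i - o`, `x j - o` have
`dt ≥ 0`: pShort (`o ≠ x i, x j`). Contradiction to `MN`. -/
def pDisj : Prop := ∀ (A : Finset ℂ) (n : ℕ) (H : SimpleGraph (Fin n)) (x : Fin n → ℂ), MT A H x →
  ∀ i j k l, H.Adj i j → H.Adj k l → i ≠ k → i ≠ l → j ≠ k → j ≠ l →
  Disjoint (segment ℝ (x i) (x j)) (segment ℝ (x k) (x l))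

/-- **pVec.** vectors with mutual angles at least 120 degrees. Proof. (1) four: the sum of the unit
vectors has squared norm `≤ 4 - 12/2 < 0`. (2) three: the sum of the unit vectors has squared norm
`≤ 3 - 3 = 0`, so is `0`, `w = -u-v`, and `crs u v = crs v w = crs w u`, which is not `0` because
`dt u v = -1/2`. -/
def pVec : Prop :=
  (∀ a b c d : ℂ, a ≠ 0 → b ≠ 0 → c ≠ 0 → d ≠ 0 → 2 * dt a b ≤ - (‖a‖ * ‖b‖) →
    2 * dt a c ≤ - (‖a‖ * ‖c‖) → 2 * dt a d ≤ - (‖a‖ * ‖d‖) → 2 * dt b c ≤ - (‖b‖ * ‖c‖) →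
    2 * dt b d ≤ - (‖b‖ * ‖d‖) → 2 * dt c d ≤ - (‖c‖ * ‖d‖) → False) ∧
  (∀ a b c : ℂ, a ≠ 0 → b ≠ 0 → c ≠ 0 → 2 * dt a b ≤ - (‖a‖ * ‖b‖) →
    2 * dt a c ≤ - (‖a‖ * ‖c‖) → 2 * dt b c ≤ - (‖b‖ * ‖c‖) →
    (0 < crs a b ∧ 0 < crs b c ∧ 0 < crs c a) ∨ (0 < crs b a ∧ 0 < crs a c ∧ 0 < crs c b))

/-- **pRoot.** rooted form of a tree. Proof. `H` a tree, `r` a vertex: `d v = H.dist r v`,
`p v` = the vertex before `v` on the unique path from `r` to `v`. -/
def pRoot : Prop := ∀ (n : ℕ) (H : SimpleGraph (Fin n)), H.IsTree → ∀ r : Fin n,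
  ∃ (p : Fin n → Fin n) (d : Fin n → ℕ), d r = 0 ∧ (∀ v, v ≠ r → H.Adj v (p v) ∧ d v = d (p v) + 1) ∧
    ∀ u v, H.Adj u v → (v ≠ r ∧ p v = u) ∨ (u ≠ r ∧ p u = v)

/-- **pBT.** (uses pVec, pRoot) from graphs to `BT`. Proof. With `p`, `d` of pRoot for the root
`r`: by strong induction on `n - d v`, for every `v ≠ r` there is `t : BT` with `t.rt = v`,
`t.labs` = the descendants of `v` (`∃ m, p^[m] w = v`, avoiding `r`), without repetition, leaves =
the descendants with one neighbour, `t.eds (p v)` = the pairs `(p w, w)` for the descendants `w`, and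
`Good`. If `v` has one neighbour (the parent): `leaf v`. Otherwise three neighbours `p v`, `a`, `b`
(pVec, pAng as hypothesis `hang`), `a`, `b` children, ordered such that the three determinants are
positive (pVec). For `v` = the only neighbour of `r` the descendants are all vertices `≠ r`. -/
def pBT : Prop := ∀ (n : ℕ) (H : SimpleGraph (Fin n)) (x : Fin n → ℂ) (r : Fin n), H.IsTree →
  2 ≤ n → Function.Injective x →
  (∀ i, (Finset.univ.filter fun j => H.Adj i j).card = 1 ∨
    3 ≤ (Finset.univ.filter fun j => H.Adj i j).card) →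
  (Finset.univ.filter fun j => H.Adj r j).card = 1 →
  (∀ i j k, H.Adj i j → H.Adj i k → j ≠ k →
    2 * dt (x j - x i) (x k - x i) ≤ - (‖x j - x i‖ * ‖x k - x i‖)) →
  ∃ t : BT, ∀ P : ℕ → ℂ, (∀ i : Fin n, P i.val = x i) → (AL r.val t).Nodup ∧
    (∀ i, i ∈ AL r.val t ↔ i < n) ∧
    (∀ i : Fin n, i.val ∈ t.lvs ↔ (i ≠ r ∧ (Finset.univ.filter fun j => H.Adj i j).card = 1)) ∧
    t.Good P r.val ∧ elen P (t.eds r.val) = tlen dist H x ∧
    ∀ e ∈ t.eds r.val, ∃ i j : Fin n, H.Adj i j ∧ e = (i.val, j.val)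

/-- **pCut.** a terminal of degree at least two cuts the problem. Proof. `i` with `x i = a ∈ A` and
two neighbours. Let `j` be a neighbour, `C` = the component of `j` in `H` without the edge `ij`
(for instance: the vertices `v` with `H.dist i v = H.dist j v + 1`, or with pRoot at root `i`: the
descendants of `j`). `E₂` = edges of `H` inside `C` and the edge `ij`, `E₁` = the other edges.
`A₂ = {a} ∪ (A ∩ x '' C)`, `A₁ = A \ x '' C`. `E₁` connects `A₁`, `E₂` connects `A₂`.
`A₂ ≠ A`: there is a second neighbour `j'` of `i`, its branch contains a vertex of degree one (the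
one with the largest distance from `i`), which is in `A` by `deg`. `A₁ ≠ A` in the same way. -/
def pCut : Prop := ∀ (A : Finset ℂ) (n : ℕ) (H : SimpleGraph (Fin n)) (x : Fin n → ℂ), MT A H x →
  (∃ i, x i ∈ A ∧ 2 ≤ (Finset.univ.filter fun j => H.Adj i j).card) →
  ∃ (A₁ A₂ : Finset ℂ) (E₁ E₂ : List (ℂ × ℂ)), A₁ ∪ A₂ = A ∧ (A₁ ∩ A₂).Nonempty ∧
    A₁.card < A.card ∧ A₂.card < A.card ∧ NConn E₁ (A₁ : Set ℂ) ∧ NConn E₂ (A₂ : Set ℂ) ∧
    nlen dist E₁ + nlen dist E₂ ≤ tlen dist H x

/-- **pFin.** final assembly. (uses pMin, pAng, pDisj, pVec, pBT, pCut, pPert) Proof. Strong induction on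
`A.card` for all `E`. `A.card ≤ 1`: `m = []`. Otherwise pMin; `tlen ≤ nlen dist E`. If a terminal has
degree `≥ 2`: pCut and induction, `m = m₁ ++ m₂`. Otherwise every terminal has degree one (degree
`≥ 1` since the tree is connected with at least two vertices), pBT with a terminal root `r`, and
`pPert`: `DJ` from pDisj (positions `P i = x i` for `i < n`), leaves and root = terminals (a vertex
with degree one is in `A` by `deg`). `m` = the list of the pairs `(P e.1, P e.2)`, `e ∈ m`. -/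
def pFin : Prop := tGen → stPlanar

end Pool.Agent.Helper42.GP
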